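import Mathlib
import Pool.Agent.H.MP_2869d0_nt.A
import Pool.Agent.H.MP_cbe697_nt.Main

namespace Pool.Agent.Results.MP_2869d0_nt.Q1

open Nat Finset Pool.Agent.H.MP_2869d0_nt

/-- the Apery polynomial `A_n(x)` evaluated in a commutative ring -/
def A {R : Type*} [CommRing R] (n : ℕ) (x : R) : R :=
  ∑ k ∈ range (n + 1), (n.choose k : R) ^ 2 * ((n + k).choose k : R) ^ 2 * x ^ k

def c (l m : ℕ) : ℕ := l.choose m * m.choose (l - m) * (2 * m).choose m

def f {R : Type*} [CommRing R] (l : ℕ) (x : R) : R := ∑ m ∈ range (l + 1), (c l m : R) * x ^ m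

lemma ch (a b n : ℕ) (h : n = a + b) : (n.choose a : ℚ) = n ! / (a ! * b !) := by
  subst h; rw [Nat.cast_choose ℚ (by omega), Nat.add_sub_cancel_left]

lemma strehl (m r : ℕ) : ∑ l ∈ range (m + r + 1), (m + r + l).choose l * (m + r).choose l * c l m =
    (m + r).choose m ^ 2 * (m + r + m).choose m ^ 2 := by
  have h := Pool.Agent.H.MP_cbe697_nt.saal m (m + r) (2 * m) r r (by ring)
  rw [add_assoc m r 1, sum_range_add, sum_eq_zero (fun l hl => by
    simp [c, Nat.choose_eq_zero_of_lt (mem_range.1 hl)]), zero_add]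
  rw [Finset.Nat.sum_antidiagonal_eq_sum_range_succ_mk] at h
  have e : ∀ i ∈ range (r + 1), (m + r + (m + i)).choose (m + i) * (m + r).choose (m + i) * c (m + i) m
      = (m.choose i * (m + r).choose (r - i) * (i + (2 * m + r)).choose (2 * m + r)) *
        ((m + r + m).choose m * (2 * m).choose m) := by
    intro i hi
    obtain ⟨j, rfl⟩ : ∃ j, r = i + j := ⟨r - i, by have := mem_range.1 hi; omega⟩
    unfold c
    rw [Nat.add_sub_cancel_left, Nat.add_sub_cancel_left]
    apply Nat.cast_injective (R := ℚ)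
    push_cast
    rw [ch (m + i) (m + (i + j)) _ (by ring), ch (m + i) j _ (by ring), ch m i _ rfl,
      ch j (m + i) _ (by ring), ch (2 * m + (i + j)) i _ (by ring),
      ch m (m + (i + j)) (m + (i + j) + m) (by ring),
      show i + (2 * m + (i + j)) = m + (i + j) + (m + i) by ring,
      show 2 * m + (i + j) = m + (i + j) + m by ring]
    field_simp
  rw [sum_congr rfl e, ← sum_mul, h]
  apply Nat.cast_injective (R := ℚ)
  push_cast
  rw [ch (2 * m) r _ rfl, ch r m _ (by ring), ch m (m + r) _ (by ring), ch m m _ (by ring),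
    ch m r _ rfl, show 2 * m + r = m + r + m by ring]
  field_simp

variable {R : Type*} [CommRing R]

lemma f_ext (l L : ℕ) (h : l < L) (x : R) : ∑ m ∈ range L, (c l m : R) * x ^ m = f l x := by
  refine (sum_subset (range_subset_range.2 h) fun m _ hm => ?_).symm
  simp [c, Nat.choose_eq_zero_of_lt (show l < m by simpa using hm)]

lemma A_eq (k L : ℕ) (h : k < L) (x : R) :
    A k x = ∑ l ∈ range L, (((k + l).choose l * k.choose l : ℕ) : R) * f l x := by
  rw [← sum_subset (range_subset_range.2 (show k + 1 ≤ L from h)) fun m _ hm => by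
    simp [Nat.choose_eq_zero_of_lt (show k < m by simpa using hm)]]
  rw [sum_congr rfl fun l hl => by rw [← f_ext l (k + 1) (mem_range.1 hl), mul_sum], sum_comm]
  refine sum_congr rfl fun m hm => ?_
  obtain ⟨r, rfl⟩ : ∃ r, k = m + r := ⟨k - m, by have := mem_range.1 hm; omega⟩
  have := congrArg (Nat.cast : ℕ → R) (strehl m r)
  push_cast at this ⊢
  rw [← this, sum_mul]
  exact sum_congr rfl fun l _ => by ring

def P (N : ℕ) (x : R) : R := ∑ l ∈ range (N + 1), ((N.choose l * (N + 1 + l).choose l : ℕ) : R) * f l x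

lemma S_eq (N : ℕ) (x : R) : ∑ k ∈ range (N + 1), (2 * k + 1) * (-1) ^ k * A k x =
    (N + 1) * ((-1) ^ N * P N x) := by
  rw [sum_congr rfl fun k hk => by rw [A_eq k (N + 1) (mem_range.1 hk), mul_sum], sum_comm, P,
    mul_sum, mul_sum]
  refine sum_congr rfl fun l _ => ?_
  have h := congrArg (Int.cast : ℤ → R) (Pool.Agent.H.MP_cbe697_nt.tel_o 0 l (N + 1))
  have h2 := congrArg (Nat.cast : ℕ → R) (Nat.add_one_mul_choose_eq N l)
  unfold Pool.Agent.H.MP_cbe697_nt.o at h
  simp only [zero_add] at h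
  push_cast at h h2 ⊢
  rw [sum_congr rfl fun (k : ℕ) _ => show _ = ((-1) ^ k * (2 * (k : R) + 1 - 0) *
    (((k + l).choose l : R) * (k.choose l : R))) * f l x by ring, ← sum_mul, h, pow_succ]
  linear_combination (-(-1) ^ N * ((N + 1 + l).choose l : R) * f l x) * h2

def t (n j : ℕ) : ℚ := 4 ^ j * cz ((n : ℤ) - j) * n ! * iv j ^ 2 * iv ((n : ℤ) - 2 * j)

def v (m j : ℕ) : ℚ := 4 ^ j * m ! * iv j * iv (j + 1) * iv ((m : ℤ) - 2 * j - 1) * cz ((m : ℤ) - j)

def H (m j : ℕ) : ℚ := 4 ^ j * (m + 1)! * iv j * iv ((j : ℤ) - 1) * iv ((m : ℤ) + 2 - 2 * j) *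
  K ((m : ℤ) + 1 - j) *
  (-24 * (m + 1) ^ 2 + 56 * (m + 1) * j - 32 * j ^ 2 - 42 * (m + 1) + 52 * j - 18)

lemma wz (m j : ℕ) : (m + 2) * (t (m + 2) j - 12 * v (m + 1) j) +
    4 * (m + 1) * (t (m + 1) j - 12 * v m j) - 2 * t (m + 1) j = H m (j + 1) - H m j := by
  unfold t v H K
  have a1 := iv_succ (j : ℤ)
  have a2 := iv_succ ((j : ℤ) - 1)
  have a3 := iv_succ ((m : ℤ) + 1 - 2 * j)
  have a4 := iv_succ ((m : ℤ) - 2 * j)
  have a5 := iv_succ ((m : ℤ) - 2 * j - 1)
  have c1 := cz_succ ((m : ℤ) + 1 - j)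
  have c2 := cz_succ ((m : ℤ) - j)
  have o1 := odd_ne ((m : ℤ) + 1 - j)
  have o2 := odd_ne ((m : ℤ) - j)
  rw [show (j : ℤ) - 1 + 1 = j by ring] at a2
  rw [show (m : ℤ) + 1 - 2 * j + 1 = m + 2 - 2 * j by ring] at a3
  rw [show (m : ℤ) - 2 * j + 1 = m + 1 - 2 * j by ring] at a4
  rw [show (m : ℤ) - 2 * j - 1 + 1 = m - 2 * j by ring] at a5
  rw [show (m : ℤ) + 1 - j + 1 = m + 2 - j by ring] at c1
  rw [show (m : ℤ) - j + 1 = m + 1 - j by ring] at c2
  push_cast
  rw [show (m : ℤ) + 1 - j + 1 = m + 2 - j by ring,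
    show (j : ℤ) + 1 - 1 = j by ring, show (m : ℤ) + 2 - 2 * (j + 1) = m - 2 * j by ring,
    show (m : ℤ) + 1 - 2 * j - 1 = m - 2 * j by ring,
    show (m : ℤ) + 1 - (j + 1) + 1 = m + 1 - j by ring, a2, a5, a4, a3, c2, c1, a1,
    factorial_succ (m + 1), factorial_succ m]
  push_cast at o1 o2 ⊢
  rw [show (m : ℚ) + 1 - (j + 1) = m - j by ring]
  field_simp
  ring

def F (l : ℕ) : ℕ := ∑ m ∈ range (l + 1), c l m * 4 ^ (l - m)

def V (m : ℕ) : ℕ := ∑ j ∈ range (m + 1),
  4 ^ j * m.choose j * (m - j).choose (j + 1) * centralBinom (m - j)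

lemma t_sum (m L : ℕ) (hL : m + 1 ≤ L) : ∑ j ∈ range L, t m j = F m := by
  induction L, hL using Nat.le_induction with
  | base =>
    unfold F c
    push_cast
    rw [← sum_range_reflect]
    refine sum_congr rfl fun k hk => ?_
    obtain ⟨j, rfl⟩ : ∃ j, m = k + j := ⟨m - k, by have := mem_range.1 hk; omega⟩
    rw [show k + j + 1 - 1 - k = j by omega, show k + j - k = j by omega, choose_iv (k + j) k,
      choose_iv k j, ← centralBinom_eq_two_mul_choose, ← cz_nat]
    unfold t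
    push_cast
    rw [show (k : ℤ) + j - j = k by ring, show (k : ℤ) + j - k = j by ring,
      show (k : ℤ) + j - 2 * j = k - j by ring, iv_nat k]
    field_simp
  | succ L hL ih =>
    rw [sum_range_succ, ih]
    unfold t
    rw [iv_neg (x := (m : ℤ) - 2 * L) (by omega)]
    simp

lemma v_sum (m L : ℕ) (hL : m + 1 ≤ L) : ∑ j ∈ range L, v m j = V m := by
  induction L, hL using Nat.le_induction with
  | base =>
    unfold V
    push_cast
    refine sum_congr rfl fun j hj => ?_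
    obtain ⟨k, rfl⟩ : ∃ k, m = j + k := ⟨m - j, by have := mem_range.1 hj; omega⟩
    rw [Nat.add_sub_cancel_left, choose_iv, choose_iv, ← cz_nat]
    unfold v
    push_cast
    rw [show (j : ℤ) + k - j = k by ring, show (j : ℤ) + k - 2 * j - 1 = k - (j + 1) by ring,
      iv_nat k]
    field_simp
  | succ L hL ih =>
    rw [sum_range_succ, ih]
    unfold v
    rw [iv_neg (x := (m : ℤ) - 2 * L - 1) (by omega)]
    simp

def G (l : ℕ) : ℤ := F l - 12 * V (l - 1)

lemma G_rec (l : ℕ) : (l + 1) * G (l + 1) + 4 * l * G l = 2 * F l := by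
  cases l with
  | zero => simp [G, F, V, c, sum_range_succ]
  | succ m =>
    have h := sum_congr (rfl : range (m + 3) = range (m + 3)) fun j _ => wz m j
    rw [sum_range_sub (fun j => H m j), sum_sub_distrib, sum_add_distrib, ← mul_sum, ← mul_sum,
      ← mul_sum, sum_sub_distrib, sum_sub_distrib, ← mul_sum, ← mul_sum,
      t_sum _ _ (by omega), t_sum _ _ (by omega), v_sum _ _ (by omega), v_sum _ _ (by omega)] at h
    have h0 : H m 0 = 0 := by
      unfold H; rw [iv_neg (x := ((0 : ℕ) : ℤ) - 1) (by simp)]; simp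
    have h1 : H m (m + 3) = 0 := by
      unfold H; rw [iv_neg (x := (m : ℤ) + 2 - 2 * ((m + 3 : ℕ) : ℤ)) (by push_cast; omega)]; simp
    rw [h0, h1] at h
    apply Int.cast_injective (α := ℚ)
    unfold G
    simp only [Nat.add_sub_cancel]
    push_cast
    linear_combination h

lemma P_zero (N : ℕ) (x : R) (hx : 4 * x = 1) (hN : (N + 1 : R) = 0) : P N x = 0 := by
  have hf : ∀ l, f l x = x ^ l * F l := fun l => by
    unfold f F
    push_cast
    rw [mul_sum]
    refine sum_congr rfl fun m hm => ?_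
    obtain ⟨j, rfl⟩ : ∃ j, l = m + j := ⟨l - m, by have := mem_range.1 hm; omega⟩
    have : (4 : R) ^ j * x ^ j = 1 := by rw [← mul_pow, hx, one_pow]
    rw [Nat.add_sub_cancel_left]
    linear_combination (-(c (m + j) m : R) * x ^ m) * this
  have h := sum_range_sub' (fun l => (2 * l * (G l : R) * x ^ l) *
    ((N.choose l * (N + 1 + l).choose l : ℕ) : R)) (N + 1)
  rw [Nat.choose_succ_self] at h
  simp only [Nat.cast_zero, mul_zero, zero_mul, sub_zero] at h
  rw [← h]
  refine sum_congr rfl fun l _ => ?_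
  have g := congrArg (Int.cast : ℤ → R) (G_rec l)
  have e1 := congrArg (Nat.cast : ℕ → R) (Nat.add_one_mul_choose_eq N l)
  have e2 := congrArg (Nat.cast : ℕ → R) (Nat.add_one_mul_choose_eq (N + 1 + l) l)
  rw [Nat.choose_succ_succ] at e1
  rw [hf, show N + 1 + (l + 1) = N + 1 + l + 1 from rfl]
  push_cast at g e1 e2 ⊢
  simp only [Nat.succ_eq_add_one] at e1
  set a : R := (N.choose l : R)
  set a' : R := (N.choose (l + 1) : R)
  set b : R := ((N + 1 + l).choose l : R)
  set b' : R := ((N + 1 + l + 1).choose (l + 1) : R)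
  have e3 : (l + 1) * b' = (l + 1) * b := by linear_combination -e2 + b * hN
  have e4 : (l + 1) * a' = -((l + 1) * a) := by linear_combination -e1 + a * hN
  linear_combination (2 * G (l + 1) * x ^ (l + 1) * a') * e3 + (2 * G (l + 1) * x ^ (l + 1) * b) * e4
    - (2 * x ^ (l + 1) * a * b) * g + (x ^ l * a * b * (2 * l * G l - F l)) * hx

lemma P_map {S : Type*} [CommRing S] (g : R →+* S) (N : ℕ) (x : R) : g (P N x) = P N (g x) := by
  simp [P, f]

theorem result (p : ℕ) [Fact p.Prime] (n : ℕ) (hn : 0 < n) (x : ℤ_[p]) :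
    min (Padic.addValuation (n : ℚ_[p])) (Padic.addValuation (4 * (x : ℚ_[p]) - 1)) ≤
      Padic.addValuation ((1 / (n : ℚ_[p])) *
        ∑ k ∈ range n, (2 * k + 1) * (-1) ^ k * A k (x : ℚ_[p])) := by
  obtain ⟨N, rfl⟩ : ∃ N, n = N + 1 := ⟨n - 1, by omega⟩
  have h := P_zero N (Ideal.Quotient.mk (Ideal.span {(N + 1 : ℤ_[p]), 4 * x - 1}) x)
    (by
      rw [← sub_eq_zero]
      exact Ideal.Quotient.eq_zero_iff_mem.2 (Ideal.subset_span (s := {(N + 1 : ℤ_[p]), 4 * x - 1})
        (by simp)))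
    (Ideal.Quotient.eq_zero_iff_mem.2 (Ideal.subset_span (s := {(N + 1 : ℤ_[p]), 4 * x - 1})
      (by simp)))
  rw [← P_map, Ideal.Quotient.eq_zero_iff_mem, Ideal.mem_span_pair] at h
  obtain ⟨a, b, hab⟩ := h
  have h2 := congrArg (PadicInt.Coe.ringHom (p := p)) hab
  rw [P_map] at h2
  simp only [map_add, map_mul, map_sub, map_natCast, map_one, map_ofNat] at h2
  change (a : ℚ_[p]) * (N + 1) + (b : ℚ_[p]) * (4 * x - 1) = P N (x : ℚ_[p]) at h2
  have hne : ((N : ℚ_[p]) + 1) ≠ 0 := by exact_mod_cast Nat.succ_ne_zero N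
  have nn : ∀ (y : ℤ_[p]) (z : ℚ_[p]), Padic.addValuation z ≤ Padic.addValuation ((y : ℚ_[p]) * z) := by
    intro y z
    rw [AddValuation.map_mul]
    refine le_add_of_nonneg_left ?_
    rcases eq_or_ne (y : ℚ_[p]) 0 with h | h
    · rw [h]; simp
    · rw [Padic.addValuation.apply h]; exact_mod_cast Nat.zero_le _
  rw [S_eq, ← h2]
  push_cast
  rw [← mul_assoc, one_div_mul_cancel hne, one_mul,
    show (-1 : ℚ_[p]) ^ N * (a * (N + 1) + b * (4 * x - 1)) = (((-1) ^ N * a : ℤ_[p]) : ℚ_[p]) * (N + 1) +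
      (((-1) ^ N * b : ℤ_[p]) : ℚ_[p]) * (4 * x - 1) by push_cast; ring]
  exact (min_le_min (nn _ _) (nn _ _)).trans (AddValuation.map_add _ _ _)

end Pool.Agent.Results.MP_2869d0_nt.Q1
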